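import Pool.Agent.ABCP.Stmts

/-!
# MP_4e0dfc_co (ABCP), row QUO
-/

set_option autoImplicit false

namespace Pool.Agent.ABCP.H28

open Matrix
open Pool.Agent.ABC3 (St sdeg xc mu mu_def xc_comm xc_sq mu_comm mu_deg HasDeg HomV kr)

theorem quo : QUOStmt := by
  intro p _ K Q _ _ _ _ ι _ _ ev P h f
  have key : ∀ q : Q, (TSys p (fun c => P.liftQ (ev c) (h c))).act (Submodule.Quotient.mk q) =
      (TSys p ev).act q := by
    intro q
    rw [TSys_act, TSys_act]
    rfl
  constructor
  · rintro ⟨h1, h2⟩
    refine ⟨h1, ?_⟩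
    intro q _
    have := h2 (Submodule.Quotient.mk q) trivial
    rw [key q] at this
    exact this
  · rintro ⟨g, hg, hq⟩
    refine ⟨g, ?_, ?_⟩
    · intro c
      refine ⟨(hg c).1, ?_⟩
      intro x hx
      have hx' : (Submodule.Quotient.mk x : Q ⧸ P) ∈ LinearMap.ker (P.liftQ (ev c) (h c)) := by
        rw [LinearMap.mem_ker]
        exact hx
      have := (hg c).2 (Submodule.Quotient.mk x) hx'
      rw [key x] at this
      exact this
    · intro q hq1
      have h3 := hq (fun c => Submodule.Quotient.mk (q c)) (fun c => hq1 c)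
      rw [h3]
      refine Finset.sum_congr rfl fun c _ => ?_
      unfold Tr
      rw [key (q c)]

end Pool.Agent.ABCP.H28
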