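import Pool.Agent.ABCP.Stmts

/-!
# MP_4e0dfc_co (ABCP), row SQR (adapted from helper33's ABC3 SQR)
-/

set_option autoImplicit false

namespace Pool.Agent.ABCP.H28

open Matrix
open Pool.Agent.ABC3 (St sdeg xc mu mu_def xc_comm xc_sq mu_comm mu_deg HasDeg HomV kr)

section

variable {R : Type} [Ring R] {n : ℕ} (p : ℕ) (A : Fin n → R)
  (hA : ∀ i j, A i * A j = A j * A i)

include hA in
theorem prod_perm {m m' : List (Fin n)} (h : m.Perm m') : (m.map A).prod = (m'.map A).prod :=
  (h.map A).prod_eq' (List.pairwise_map.2 (List.pairwise_of_forall fun x y => hA x y))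

include hA in
theorem prod_count (h3 : ∀ i, A i ^ p = 0) (m : List (Fin n)) (i : Fin n)
    (hi : p ≤ m.count i) : (m.map A).prod = 0 := by
  have h1 : (List.replicate p i).Sublist m := List.replicate_sublist_iff.2 hi
  obtain ⟨l, hl⟩ := h1.exists_perm_append
  rw [prod_perm A hA hl, List.map_append, List.prod_append, List.map_replicate,
    List.prod_replicate, h3, zero_mul]

theorem sum_count (m : List (Fin n)) : ∑ i, m.count i = m.length := by
  have := Multiset.sum_count_eq_card (s := (Finset.univ : Finset (Fin n)))
    (m := (m : Multiset (Fin n))) (by intro a _; exact Finset.mem_univ a)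
  simpa using this

include hA in
theorem prod_all (k : ℕ) (m : List (Fin n)) (h : ∀ i, m.count i = k) :
    (m.map A).prod = (List.ofFn (fun i => A i ^ k)).prod := by
  have h1 : m.Perm ((List.ofFn (fun i : Fin n => List.replicate k i)).flatten) := by
    rw [List.perm_iff_count]
    intro i
    rw [h i, List.count_flatten, List.map_ofFn, List.sum_ofFn]
    simp only [Function.comp]
    rw [Finset.sum_eq_single i]
    · simp
    · intro j _ hj
      rw [List.count_replicate, if_neg (by simpa using hj)]
    · intro h; exact absurd (Finset.mem_univ _) h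
  rw [prod_perm A hA h1, List.map_flatten, List.prod_flatten, List.map_ofFn, List.map_ofFn]
  congr 2
  funext i
  simp

include hA in
theorem prod_len (hp : 1 ≤ p) (h3 : ∀ i, A i ^ p = 0) (m : List (Fin n))
    (hm : m.length = (p - 1) * n) :
    (m.map A).prod = 0 ∨ (m.map A).prod = (List.ofFn (fun i => A i ^ (p - 1))).prod := by
  by_cases h : ∃ i, p ≤ m.count i
  · obtain ⟨i, hi⟩ := h
    exact Or.inl (prod_count p A hA h3 m i hi)
  · right
    push Not at h
    refine prod_all A hA (p - 1) m ?_
    by_contra hne
    push Not at hne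
    obtain ⟨i, hi⟩ := hne
    have hlt : ∑ i, m.count i < ∑ _i : Fin n, (p - 1) := by
      refine Finset.sum_lt_sum (fun j _ => by have := h j; omega) ⟨i, Finset.mem_univ _, ?_⟩
      have := h i
      omega
    rw [sum_count, hm, Finset.sum_const, Finset.card_univ, Fintype.card_fin, smul_eq_mul,
      mul_comm] at hlt
    omega

include hA in
/-- more factors than `(p - 1) n`: the product is zero -/
theorem prod_long (hp : 1 ≤ p) (h3 : ∀ i, A i ^ p = 0) (m : List (Fin n))
    (hm : (p - 1) * n < m.length) : (m.map A).prod = 0 := by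
  by_cases h : ∃ i, p ≤ m.count i
  · obtain ⟨i, hi⟩ := h
    exact prod_count p A hA h3 m i hi
  · exfalso
    push Not at h
    have hle : ∑ i, m.count i ≤ ∑ _i : Fin n, (p - 1) :=
      Finset.sum_le_sum (fun j _ => by have := h j; omega)
    rw [sum_count, Finset.sum_const, Finset.card_univ, Fintype.card_fin, smul_eq_mul,
      mul_comm] at hle
    omega

end

/-- A product of elements of `P` is a combination of products of basis elements. -/
theorem prod_span {p : ℕ} {K Q B : Type} [Field K] [AddCommGroup Q] [Module K Q] [Fintype B]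
    [DecidableEq B] (S : Sys p K Q B) (P : Submodule K Q) (n : ℕ)
    (b : Module.Basis (Fin n) K P) (l : List Q) (hl : ∀ x ∈ l, x ∈ P) :
    (l.map (fun x => S.act x)).prod ∈
      Submodule.span K {M : Matrix B B K | ∃ m : List (Fin n), m.length = l.length ∧
        M = (m.map (fun i => S.act (b i : Q))).prod} := by
  induction l with
  | nil => exact Submodule.subset_span ⟨[], rfl, rfl⟩
  | cons q l ih =>
    have ih' := ih (fun x hx => hl x (List.mem_cons_of_mem _ hx))
    have hqP : q ∈ P := hl q List.mem_cons_self
    rw [List.map_cons, List.prod_cons]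
    have hq : S.act q = ∑ i, b.repr ⟨q, hqP⟩ i • S.act (b i : Q) := by
      have h1 : (q : Q) = ∑ i, b.repr ⟨q, hqP⟩ i • (b i : Q) := by
        have h2 := b.sum_repr ⟨q, hqP⟩
        have h3 : ((∑ i, b.repr ⟨q, hqP⟩ i • b i : P) : Q) = q := congrArg (Subtype.val) h2
        refine h3.symm.trans ?_
        rw [AddSubmonoidClass.coe_finsetSum]
        rfl
      conv_lhs => rw [h1]
      rw [map_sum]
      simp only [map_smul]
    rw [hq, Finset.sum_mul]
    refine Submodule.sum_mem _ fun i _ => ?_
    rw [Matrix.smul_mul]
    refine Submodule.smul_mem _ _ ?_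
    refine Submodule.span_induction (p := fun x _ => S.act (b i : Q) * x ∈
      Submodule.span K {M : Matrix B B K | ∃ m : List (Fin n), m.length = (q :: l).length ∧
      M = (m.map (fun i => S.act (b i : Q))).prod}) ?_ ?_ ?_ ?_ ih'
    · rintro x ⟨m, hm, rfl⟩
      exact Submodule.subset_span ⟨i :: m, by simp [hm], by simp⟩
    · rw [mul_zero]; exact Submodule.zero_mem _
    · intro x y _ _ hx hy
      rw [mul_add]; exact Submodule.add_mem _ hx hy
    · intro a x _ hx
      rw [Matrix.mul_smul]; exact Submodule.smul_mem _ _ hx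

theorem sqr : SQRStmt := by
  intro p hp K Q B _ _ _ _ _ S P n b v hv l hl hlen
  have hA : ∀ i j, S.act (b i : Q) * S.act (b j : Q) = S.act (b j : Q) * S.act (b i : Q) :=
    fun i j => S.comm _ _
  have h3 : ∀ i, S.act (b i : Q) ^ p = 0 := fun i => S.pw _
  have hn : Module.finrank K P = n := by
    rw [Module.finrank_eq_card_basis b, Fintype.card_fin]
  rw [hn] at hlen
  refine Submodule.span_induction (p := fun x _ => x.mulVec v = 0) ?_ ?_ ?_ ?_
    (prod_span S P n b l hl)
  · rintro x ⟨m, hm, rfl⟩
    rcases prod_len p (fun i => S.act (b i : Q)) hA hp.out.one_le h3 m (hm.trans hlen) with h | h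
    · rw [h, Matrix.zero_mulVec]
    · rw [h, hv]
  · exact Matrix.zero_mulVec _
  · intro x y _ _ hx hy
    rw [Matrix.add_mulVec, hx, hy, add_zero]
  · intro a x _ hx
    rw [Matrix.smul_mulVec, hx, smul_zero]

end Pool.Agent.ABCP.H28
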